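import Pool.Agent.Helper30.TQ.St

/-!
# Project TQ (MP_ad0dc2_nt), module ALG: the multiplication modulo a cubic
-/

set_option autoImplicit false

namespace Pool.Agent.Helper27.TQ

open Pool.Agent.Helper30.TQ

/-- MODULE ALG. -/
theorem hALG : StALG := by
  rintro c ⟨p, q, r⟩ ⟨p', q', r'⟩ ⟨p'', q'', r''⟩
  refine ⟨?_, ?_, ?_, ?_, ?_, ?_⟩
  · simp only [nm, mu]
    ring
  · simp only [nm, mu, iv, Prod.mk.injEq]
    refine ⟨by ring, by ring, by ring⟩
  · simp only [mu, Prod.mk.injEq]
    refine ⟨by ring, by ring, by ring⟩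
  · simp only [mu, Prod.mk.injEq]
    refine ⟨by ring, by ring, by ring⟩
  · simp only [mu, Prod.mk.injEq]
    refine ⟨by ring, by ring, by ring⟩
  · intro a ha
    simp only [ev, mu]
    push_cast
    linear_combination (-((q : ℝ) * r' + r * q' + r * r' * a)) * ha

end Pool.Agent.Helper27.TQ
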